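import Pool.Graph.R_pool_sql_team_seeded_1e53cb71.Helper98K9.CP.All

set_option autoImplicit false

/-!
# Critical percolation on the canopy tree times the line and times the half-line

`pcG G` is the critical value of Bernoulli bond percolation on `G`.  For every canopy tree `C` of
degree `d` (`d` at least 3) percolation occurs on the product of `C` with the line at the same
parameters at which it occurs on the product of `C` with the half-line.
-/

namespace Pool.Agent.Results.MP_3f1d68_pr.CanopyLineEqHalfLine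

open MeasureTheory ProbabilityTheory Filter Topology
open Pool.Agent.Helper98K9.CP
open scoped ENNReal NNReal

/-- percolation occurs on `G` at `p`: an infinite open cluster exists with positive probability -/
def Percolates {V : Type} (G : SimpleGraph V) (p : ℝ≥0) : Prop :=
  0 < perc G p {ω | ∃ x, InfCl G ω x}

/-- the critical value
`p_c(G) = inf {p in [0, 1] : P_p(there is an infinite open cluster) > 0}` -/
noncomputable def pcG {V : Type} (G : SimpleGraph V) : ℝ≥0 :=
  sInf {p : ℝ≥0 | p ≤ 1 ∧ Percolates G p}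

/-! ## the analogue of the library lemma for the product with the line -/

theorem thetaZ (hR : S_REIDX) {b : ℕ} (hb : 2 ≤ b) (p : ℝ≥0) (hp : p ≤ 1) (x : Vx) (a j : ℕ)
    (ha : x.1.1 = a) :
    (PP Ed p hp).real {ω | (cl b ω WC x).Infinite}
      ≤ (PP Ed p hp).real {ω | (cl b ω WC ((((a + j : ℕ) : ℤ), 0), 0)).Infinite} := by
  obtain ⟨σ, hσ, h1, h2⟩ := aut b hb x.1 (((a + j : ℕ) : ℤ), 0)
  rw [← Bk2L.real_te hR p hp σ (-x.2) {ω | (cl b ω WC x).Infinite}]
  refine measureReal_mono ?_ (by finiteness)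
  intro ω hω
  simp only [Set.mem_ofPred_eq] at hω ⊢
  rw [clInf_tr hσ] at hω
  have h3 : tr σ (-x.2) x = ((((a + j : ℕ) : ℤ), 0), 0) := by
    change (σ x.1, x.2 + -x.2) = _
    rw [h1]; simp
  rw [h3] at hω
  refine hω.mono (cl_mono ?_ fun e _ h => h)
  rintro _ ⟨y, hy, rfl⟩
  change 0 ≤ (σ y.1).1
  rw [h2, ha]
  have : 0 ≤ y.1.1 := hy
  push_cast
  linarith

theorem tauZ (hR : S_REIDX) (hH : S_HAR) (hM : S_MEAS) (hBK : S_BK) (b : ℕ) (hb : 2 ≤ b)
    (p : ℝ≥0) (hp : p ≤ 1) (hp0 : 0 < p) (x : Vx)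
    (hx : 0 < (PP Ed p hp).real {ω | (cl b ω WC x).Infinite}) :
    ∃ a n : ℕ, 1 ≤ n ∧ 1 < (b : ℝ) ^ n * ((PP Ed p hp).real {ω | Cn b ω WC
      (((a : ℤ), 0), 0) ((((a + n : ℕ) : ℤ), 0), 0)}) ^ 2 := by
  have hxW : x ∈ WC := by
    by_contra hxW
    have : {ω : Cf | (cl b ω WC x).Infinite} = ∅ := by
      ext ω
      simp only [Set.mem_ofPred_eq, Set.mem_empty_iff_false, iff_false]
      exact fun h => hxW (mem_of_infinite h)
    rw [this] at hx
    simp at hx
  obtain ⟨a, ha⟩ : ∃ a : ℕ, x.1.1 = a := ⟨x.1.1.toNat, (Int.toNat_of_nonneg hxW).symm⟩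
  set θ := (PP Ed p hp).real {ω | (cl b ω WC x).Infinite} with hθ
  have hθ3 : 0 < θ ^ 3 / 3 := by positivity
  obtain ⟨n, hn⟩ : ∃ n : ℕ, 1 / (θ ^ 3 / 3) ^ 2 < (2 : ℝ) ^ n :=
    pow_unbounded_of_one_lt _ (by norm_num)
  have hn' : ∀ m : ℕ, n ≤ m → ∀ r : ℝ, θ ^ 3 / 3 ≤ r → 1 < (b : ℝ) ^ m * r ^ 2 := by
    intro m hm r hr
    have h1 : (2 : ℝ) ^ n ≤ (b : ℝ) ^ m :=
      le_trans (pow_le_pow_right₀ (by norm_num) hm)
        (pow_le_pow_left₀ (by norm_num) (by exact_mod_cast hb) m)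
    have h2 : (θ ^ 3 / 3) ^ 2 ≤ r ^ 2 := pow_le_pow_left₀ hθ3.le hr 2
    have h3 : 1 < (2 : ℝ) ^ n * (θ ^ 3 / 3) ^ 2 := by
      rwa [div_lt_iff₀ (by positivity)] at hn
    calc (1 : ℝ) < (2 : ℝ) ^ n * (θ ^ 3 / 3) ^ 2 := h3
      _ ≤ (b : ℝ) ^ m * r ^ 2 := mul_le_mul h1 h2 (by positivity) (by positivity)
  set N := n + 1 with hN
  let y : ℕ → Vx := fun j => ((((a + j : ℕ) : ℤ), 0), 0)
  let E : ℕ → Set Cf := fun j => {ω | (cl b ω WC (y j)).Infinite}
  have hE : ∀ j, θ ≤ (PP Ed p hp).real (E j) := fun j => thetaZ hR hb p hp x a j ha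
  have hEm : ∀ j, MeasurableSet (E j) := fun j => (hM b WC (y j) (y j)).2
  have hEi : ∀ j, Inc (E j) := fun j => inc_clInf WC (y j)
  have hIn : ∀ A B : Set Cf, Inc A → Inc B → Inc (A ∩ B) :=
    fun A B hA hB ω ω' h h' => ⟨hA ω ω' h h'.1, hB ω ω' h h'.2⟩
  have h1 : θ ^ 2 ≤ (PP Ed p hp).real (E 0 ∩ E N) := by
    refine le_trans ?_ (hH Ed p hp (E 0) (E N) (hEm _) (hEm _) (hEi _) (hEi _))
    rw [sq]
    exact mul_le_mul (hE _) (hE _) hx.le measureReal_nonneg
  have h2 : θ ^ 3 ≤ (PP Ed p hp).real ((E 0 ∩ E N) ∩ E (2 * N)) := by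
    refine le_trans ?_ (hH Ed p hp (E 0 ∩ E N) (E (2 * N)) ((hEm _).inter (hEm _)) (hEm _)
      (hIn _ _ (hEi _) (hEi _)) (hEi _))
    rw [pow_succ]
    exact mul_le_mul h1 (hE _) hx.le measureReal_nonneg
  let C : ℕ → ℕ → Set Cf := fun i j => {ω | Cn b ω WC (y i) (y j)}
  have h3 : (E 0 ∩ E N) ∩ E (2 * N) ⊆
      {ω | Three b WC ω} ∪ (C 0 N ∪ (C 0 (2 * N) ∪ C N (2 * N))) := by
    rintro ω ⟨⟨e0, e1⟩, e2⟩
    by_contra hcon
    simp only [Set.mem_union, not_or] at hcon
    obtain ⟨c0, c1, c2, c3⟩ := hcon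
    apply c0
    refine ⟨![y 0, y N, y (2 * N)], ?_, ?_⟩
    · intro k
      fin_cases k
      · exact e0
      · exact e1
      · exact e2
    · intro k l hkl hc
      fin_cases k <;> fin_cases l
      · exact hkl rfl
      · exact c1 hc
      · exact c2 hc
      · exact c1 hc.symm
      · exact hkl rfl
      · exact c3 hc
      · exact c2 hc.symm
      · exact c3 hc.symm
      · exact hkl rfl
  have h4 : θ ^ 3 ≤ (PP Ed p hp).real (C 0 N) + ((PP Ed p hp).real (C 0 (2 * N))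
      + (PP Ed p hp).real (C N (2 * N))) := by
    calc θ ^ 3 ≤ _ := h2
      _ ≤ (PP Ed p hp).real ({ω | Three b WC ω} ∪ (C 0 N ∪ (C 0 (2 * N) ∪ C N (2 * N)))) :=
          measureReal_mono h3 (by finiteness)
      _ ≤ (PP Ed p hp).real {ω | Three b WC ω} + ((PP Ed p hp).real (C 0 N)
            + ((PP Ed p hp).real (C 0 (2 * N)) + (PP Ed p hp).real (C N (2 * N)))) := by
          refine (measureReal_union_le _ _).trans ?_
          gcongr
          refine (measureReal_union_le _ _).trans ?_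
          gcongr
          exact measureReal_union_le _ _
      _ = _ := by rw [hBK b hb p hp hp0, zero_add]
  rcases le_or_gt (θ ^ 3 / 3) ((PP Ed p hp).real (C 0 N)) with h5 | h5
  · refine ⟨a, N, by omega, ?_⟩
    have := hn' N (by omega) _ h5
    simpa only [C, y, Set.mem_ofPred_eq, add_zero] using this
  · rcases le_or_gt (θ ^ 3 / 3) ((PP Ed p hp).real (C 0 (2 * N))) with h6 | h6
    · refine ⟨a, 2 * N, by omega, ?_⟩
      have := hn' (2 * N) (by omega) _ h6
      simpa only [C, y, Set.mem_ofPred_eq, add_zero] using this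
    · refine ⟨a + N, N, by omega, ?_⟩
      have h7 : θ ^ 3 / 3 ≤ (PP Ed p hp).real (C N (2 * N)) := by linarith
      have := hn' N (by omega) _ h7
      have e : a + N + N = a + 2 * N := by ring
      rw [e]
      exact this

/-- percolation in the model of the product with the line gives percolation in the model of the
product with the half-line, at the same parameter -/
theorem model_line_half (b : ℕ) (hb : 2 ≤ b) (p : ℝ≥0) (hp : p ≤ 1) (x : Vx)
    (hx : 0 < (PP Ed p hp).real {ω | (cl b ω WC x).Infinite}) :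
    ∃ y : Vx, 0 < (PP Ed p hp).real {ω | (cl b ω WN y).Infinite} := by
  have hp0 : 0 < p := by
    rcases eq_or_lt_of_le (zero_le : (0 : ℝ≥0) ≤ p) with h | h
    · exfalso
      subst h
      rw [FinL.zero x hp] at hx
      exact lt_irrefl _ hx
    · exact h
  obtain ⟨a, n, hn, h1⟩ := tauZ reidx har meas AllL.bk' b hb p hp hp0 x hx
  obtain ⟨M, R, hM, h2⟩ := fina b hb p hp a n h1
  obtain ⟨K, hK⟩ := AllL.chain' b hb p hp hp0 M R a n hn hM h2
  exact FinL.exists_pos (AllL.can' b hb K R p hp hK)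

theorem model_half_line (b : ℕ) (p : ℝ≥0) (hp : p ≤ 1) (x : Vx)
    (hx : 0 < (PP Ed p hp).real {ω | (cl b ω WN x).Infinite}) :
    0 < (PP Ed p hp).real {ω | (cl b ω WC x).Infinite} := by
  refine lt_of_lt_of_le hx (measureReal_mono ?_ (by finiteness))
  intro ω hω
  exact Set.Infinite.mono (cl_mono (fun y hy => hy.1) fun e _ h => h) hω

/-! ## the embedding of the product with the line -/

theorem emb_canopyZ (d : ℕ) :
    Emb (d - 1) ((canopy d).boxProd line)
      (fun x : (ℕ × ℕ) × ℤ => (((x.1.1 : ℤ), x.1.2), x.2)) WC where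
  inj := by
    rintro ⟨⟨k, m⟩, h⟩ ⟨⟨k', m'⟩, h'⟩ hh
    simp only [Prod.mk.injEq, Nat.cast_inj] at hh ⊢
    exact hh
  rng := by
    ext ⟨⟨k, m⟩, h⟩
    simp only [Set.mem_range, Prod.mk.injEq, Prod.exists, WC, Set.mem_ofPred_eq]
    constructor
    · rintro ⟨k', m', h', ⟨rfl, rfl⟩, rfl⟩
      exact Int.natCast_nonneg _
    · intro h1
      exact ⟨k.toNat, m, h, ⟨Int.toNat_of_nonneg h1, rfl⟩, rfl⟩
  adj := by
    rintro ⟨⟨k, m⟩, h⟩ ⟨⟨k', m'⟩, h'⟩
    simp only [SimpleGraph.boxProd_adj, canopy, line, SimpleGraph.fromRel_adj, hd, par,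
      Bool.exists_bool, Prod.mk.injEq, ne_eq]
    simp
    constructor
    · rintro (⟨⟨h1, h2⟩, h3⟩ | ⟨⟨h1, h2⟩, h3, h4⟩)
      · rcases h2 with ⟨h2, h4⟩ | ⟨h2, h4⟩
        · left; left; exact ⟨⟨by omega, h4.symm⟩, h3⟩
        · left; right; exact ⟨⟨by omega, h4.symm⟩, h3.symm⟩
      · rcases h2 with h2 | h2
        · right; left; exact ⟨⟨h3, h4⟩, by omega⟩
        · right; right; exact ⟨⟨h3.symm, h4.symm⟩, by omega⟩
    · rintro ((⟨⟨h1, h2⟩, h3⟩ | ⟨⟨h1, h2⟩, h3⟩) | (⟨⟨h1, h2⟩, h3⟩ | ⟨⟨h1, h2⟩, h3⟩))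
      · left; exact ⟨⟨by omega, Or.inl ⟨by omega, h2.symm⟩⟩, h3⟩
      · left; exact ⟨⟨by omega, Or.inr ⟨by omega, h2.symm⟩⟩, h3.symm⟩
      · right; exact ⟨⟨by omega, Or.inl (by omega)⟩, h1, h2⟩
      · right; exact ⟨⟨by omega, Or.inr (by omega)⟩, h1.symm, h2.symm⟩

/-! ## transfer -/

theorem percolates_iff_theta {V : Type} [Countable V] (G : SimpleGraph V) (p : ℝ≥0) :
    Percolates G p ↔ ∃ x, 0 < theta G x p := by
  have hset : {ω : G.edgeSet → Bool | ∃ x, InfCl G ω x} = ⋃ x, {ω | InfCl G ω x} := by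
    ext ω; simp
  unfold Percolates
  rw [hset, pos_iff_ne_zero, Ne, measure_iUnion_null_iff]
  push Not
  simp only [theta, pos_iff_ne_zero]

theorem real_pos_iff {μ : Measure Cf} [IsProbabilityMeasure μ] (s : Set Cf) :
    0 < μ.real s ↔ 0 < μ s := by
  rw [Measure.real, ENNReal.toReal_pos_iff]
  exact ⟨fun h => h.1, fun h => ⟨h, measure_lt_top _ _⟩⟩

theorem percolates_emb {b : ℕ} {V : Type} [Countable V] {G : SimpleGraph V} {g : V → Vx}
    {W : Set Vx} (h : Emb b G g W) (p : ℝ≥0) :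
    Percolates G p ↔
      ∃ u : Vx, 0 < (PP Ed (min p 1) (min_le_right p 1)).real {ω | (cl b ω W u).Infinite} := by
  rw [percolates_iff_theta]
  constructor
  · rintro ⟨x, hx⟩
    refine ⟨g x, ?_⟩
    rw [real_pos_iff, ← h.theta_eq reidx x p]
    exact hx
  · rintro ⟨u, hu⟩
    have huW : u ∈ W := by
      by_contra hcon
      have : {ω : Cf | (cl b ω W u).Infinite} = ∅ := by
        ext ω
        simp only [Set.mem_ofPred_eq, Set.mem_empty_iff_false, iff_false]
        exact fun h => hcon (mem_of_infinite h)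
      rw [this] at hu
      simp at hu
    rw [← h.rng] at huW
    obtain ⟨x, rfl⟩ := huW
    refine ⟨x, ?_⟩
    rw [h.theta_eq reidx x p, ← real_pos_iff]
    exact hu

theorem percolates_iso {V V' : Type} [Countable V] [Countable V'] {G : SimpleGraph V}
    {G' : SimpleGraph V'} (φ : G ≃g G') (p : ℝ≥0) : Percolates G p ↔ Percolates G' p := by
  rw [percolates_iff_theta, percolates_iff_theta]
  have hth := (Pool.Agent.Helper80K9.CP.piso _ _ _ _ φ).2
  constructor
  · rintro ⟨x, hx⟩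
    exact ⟨φ x, by rw [← hth]; exact hx⟩
  · rintro ⟨y, hy⟩
    refine ⟨φ.symm y, ?_⟩
    rw [hth]
    simpa using hy

theorem percolates_line_iff (d : ℕ) (hd : 3 ≤ d) (V : Type) (C : SimpleGraph V) (l : V → ℕ)
    (hC : IsCanopy d C l) (p : ℝ≥0) :
    Percolates (C.boxProd line) p ↔ Percolates (C.boxProd halfLine) p := by
  have hb : 2 ≤ d - 1 := by omega
  obtain ⟨φ⟩ := caniso d hd V C l hC
  have : Countable V := φ.toEquiv.injective.countable
  rw [percolates_iso (boxIso φ line), percolates_iso (boxIso φ halfLine),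
    percolates_emb (emb_canopyZ d), percolates_emb (emb_canopy d)]
  constructor
  · rintro ⟨u, hu⟩
    exact model_line_half (d - 1) hb _ _ u hu
  · rintro ⟨u, hu⟩
    exact ⟨u, model_half_line (d - 1) _ _ u hu⟩

/-- For every `d ≥ 3` and every canopy tree `C` of degree `d`, percolation occurs on the product of
`C` with the line exactly at the parameters at which it occurs on the product of `C` with the
half-line; in particular the two critical values are equal. -/
theorem result (d : ℕ) (hd : 3 ≤ d) (V : Type) (C : SimpleGraph V) (l : V → ℕ)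
    (hC : IsCanopy d C l) :
    pcG (C.boxProd line) = pcG (C.boxProd halfLine) ∧
      ∀ p : ℝ≥0, Percolates (C.boxProd line) p ↔ Percolates (C.boxProd halfLine) p := by
  refine ⟨?_, percolates_line_iff d hd V C l hC⟩
  unfold pcG
  congr 1
  ext p
  simp only [Set.mem_ofPred_eq]
  exact and_congr_right fun _ => percolates_line_iff d hd V C l hC p

end Pool.Agent.Results.MP_3f1d68_pr.CanopyLineEqHalfLine
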